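import Pool.Agent.Work.MP_38b5f0_co.HubMain

set_option autoImplicit false

namespace Pool.Agent.Results.MP_38b5f0_co.AllRoots

open Pool.Agent.Work.MP_38b5f0_co

/-- Let `D` be a finite directed multigraph (loops and parallel arcs allowed) whose independence
number is at most `2`. If `D` is `3`-arc-strong, then for all vertices `s` and `t` (equal or not)
it has an out-branching rooted at `s` and an in-branching rooted at `t` with no common arc. -/
theorem result : ∀ (V A : Type) [Finite V] [Finite A] (D : MD V A),
    D.ArcStrong 3 → (∀ S : Finset V, D.Indep S → S.card ≤ 2) → ∀ s t : V,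
    ∃ B C : Set A, D.IsOutBranching s B ∧ D.IsInBranching t C ∧ Disjoint B C := by
  intro V A _ _ D hD hα s t
  classical
  have := Fintype.ofFinite V
  have := Fintype.ofFinite A
  have hKS : D.KS Finset.univ 3 := by
    intro X hX hXu
    have h1 := hD (X : Set V) (by simpa using hX) (by
      intro h
      apply hXu
      rw [Finset.eq_univ_iff_forall]
      intro x
      have : x ∈ (X : Set V) := by rw [h]; exact Set.mem_univ x
      simpa using this)
    have h2 : {e : A | D.src e ∈ (X : Set V) ∧ D.tgt e ∉ (X : Set V)}.ncard =
        D.outd Finset.univ X := by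
      rw [MD.outd, ← Set.ncard_coe_finset]
      congr 1
      ext e
      simp
    rw [← h2]
    exact h1
  obtain ⟨F, H, hd, hF, hH⟩ := D.hub_main hKS hα s t
  obtain ⟨B, hBF, hB⟩ := D.exists_outBranching (F : Set A) s hF
  obtain ⟨C, hCH, hC⟩ := D.exists_inBranching (H : Set A) t hH
  refine ⟨B, C, hB, hC, ?_⟩
  rw [Set.disjoint_left]
  intro e he he'
  exact Finset.disjoint_left.1 hd (Finset.mem_coe.1 (hBF he)) (Finset.mem_coe.1 (hCH he'))

end Pool.Agent.Results.MP_38b5f0_co.AllRoots
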