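import Pool.Agent.Work.MP_38b5f0_co.MainN

set_option autoImplicit false

namespace Pool.Agent.Results.MP_38b5f0_co.FourThirds

open Pool.Agent.Work.MP_38b5f0_co

/-- Let `D` be a finite directed multigraph (loops and parallel arcs allowed) whose independence
number is at most `a`, and let `3 k ≥ 4 a + 3`. If `D` is `k`-arc-strong, then for all vertices
`s`, `t` it has an out-branching rooted at `s` and an in-branching rooted at `t` with no common
arc. In particular arc-strength `4` suffices for independence number `2`. -/
theorem result : ∀ (V A : Type) [Finite V] [Finite A] (D : MD V A) (a k : ℕ), 4 * a + 3 ≤ 3 * k →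
    D.ArcStrong k → (∀ S : Finset V, D.Indep S → S.card ≤ a) → ∀ s t : V,
    ∃ B C : Set A, D.IsOutBranching s B ∧ D.IsInBranching t C ∧ Disjoint B C := by
  intro V A _ _ D a k hk hD hα s t
  exact D.main_twoN a k hk hD hα s t

end Pool.Agent.Results.MP_38b5f0_co.FourThirds
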